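import Pool.Agent.W295.PR.Stm

/-! Project PR, part BUN. -/

set_option autoImplicit false

open Topology

namespace Pool.Agent.W479.PR.BUN

open Pool.Agent.W295.PR

section
variable {G : Type} [Group G] {H H' : Subgroup G}

lemma conj_mem (hle : H ≤ H') (hc : ∀ x ∈ H', ∀ y ∈ H', x * y * x⁻¹ * y⁻¹ ∈ H) {x h : G}
    (hx : x ∈ H') (hh : h ∈ H) : x⁻¹ * h * x ∈ H := by
  have h1 := hc x⁻¹ (H'.inv_mem hx) h (hle hh)
  rw [inv_inv] at h1
  have h2 := H.mul_mem h1 hh
  rwa [inv_mul_cancel_right] at h2

lemma normal_sub (hle : H ≤ H') (hc : ∀ x ∈ H', ∀ y ∈ H', x * y * x⁻¹ * y⁻¹ ∈ H) :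
    (H.subgroupOf H').Normal := by
  refine ⟨fun n hn g => ?_⟩
  rw [Subgroup.mem_subgroupOf] at hn ⊢
  have := conj_mem hle hc (H'.inv_mem g.2) hn
  simpa using this

/-- the right action -/
def ra (hle : H ≤ H') (hc : ∀ x ∈ H', ∀ y ∈ H', x * y * x⁻¹ * y⁻¹ ∈ H)
    (c : H' ⧸ H.subgroupOf H') (y : G ⧸ H) : G ⧸ H :=
  Quotient.liftOn₂' c y (fun x g => ((g * (x : G) : G) : G ⧸ H)) (by
    intro x g x' g' hx hg
    rw [QuotientGroup.leftRel_apply] at hx hg
    rw [Subgroup.mem_subgroupOf] at hx
    rw [QuotientGroup.eq]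
    have h1 := conj_mem hle hc x.2 hg
    have h2 := H.mul_mem h1 hx
    have e : (g * (x : G))⁻¹ * (g' * (x' : G)) =
        (x : G)⁻¹ * (g⁻¹ * g') * (x : G) * ((x⁻¹ * x' : H') : G) := by
      push_cast
      group
    rw [e]
    exact h2)

/-- the orbit map of the base point -/
def io (H H' : Subgroup G) (c : H' ⧸ H.subgroupOf H') : G ⧸ H :=
  Quotient.liftOn' c (fun x => ((x : G) : G ⧸ H)) (by
    intro x x' hx
    rw [QuotientGroup.leftRel_apply, Subgroup.mem_subgroupOf] at hx
    rw [QuotientGroup.eq]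
    exact hx)

end

theorem main (h : S_T2) : S_BUN := by
  intro G _ _ _ H H' hH hH' hle hc hcomp
  have hN : (H.subgroupOf H').Normal := normal_sub hle hc
  have hcomm : ∀ a b : H' ⧸ H.subgroupOf H', a * b = b * a := by
    intro a b
    obtain ⟨a, rfl⟩ := QuotientGroup.mk_surjective a
    obtain ⟨b, rfl⟩ := QuotientGroup.mk_surjective b
    rw [← QuotientGroup.mk_mul, ← QuotientGroup.mk_mul, QuotientGroup.eq, Subgroup.mem_subgroupOf]
    have h1 := hc (b : G)⁻¹ (H'.inv_mem b.2) (a : G)⁻¹ (H'.inv_mem a.2)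
    rw [inv_inv, inv_inv] at h1
    have e : (((a * b)⁻¹ * (b * a) : H') : G) = (b : G)⁻¹ * (a : G)⁻¹ * b * a := by
      push_cast
      group
    rw [e]
    exact h1
  let cg : CommGroup (H' ⧸ H.subgroupOf H') :=
    { (inferInstance : Group (H' ⧸ H.subgroupOf H')) with mul_comm := hcomm }
  have hKc : IsClosed ((H.subgroupOf H' : Subgroup H') : Set H') := by
    have : ((H.subgroupOf H' : Subgroup H') : Set H') = (fun x : H' => (x : G)) ⁻¹' (H : Set G) := by
      ext x
      simp [Subgroup.mem_subgroupOf]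
    rw [this]
    exact hH.preimage continuous_subtype_val
  have ht2 : T2Space (H' ⧸ H.subgroupOf H') := h H' (H.subgroupOf H') hKc
  have htg : IsTopologicalGroup (H' ⧸ H.subgroupOf H') := inferInstance
  -- compactness
  have hio_cont : Continuous (io H H') := by
    refine (QuotientGroup.isQuotientMap_mk (N := H.subgroupOf H')).continuous_iff.2 ?_
    exact continuous_quot_mk.comp continuous_subtype_val
  have hio_inj : Function.Injective (io H H') := by
    intro a b hab
    obtain ⟨a, rfl⟩ := QuotientGroup.mk_surjective a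
    obtain ⟨b, rfl⟩ := QuotientGroup.mk_surjective b
    have hab' : ((a : G) : G ⧸ H) = ((b : G) : G ⧸ H) := hab
    rw [QuotientGroup.eq] at hab'
    rw [QuotientGroup.eq, Subgroup.mem_subgroupOf]
    exact hab'
  have hio_closed : IsClosedMap (io H H') := by
    intro F hF
    rw [← (QuotientGroup.isQuotientMap_mk (N := H)).isClosed_preimage]
    have e : (QuotientGroup.mk : G → G ⧸ H) ⁻¹' (io H H' '' F) =
        (fun x : H' => (x : G)) '' ((QuotientGroup.mk : H' → H' ⧸ H.subgroupOf H') ⁻¹' F) := by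
      ext g
      constructor
      · rintro ⟨c, hcF, hcg⟩
        obtain ⟨x, rfl⟩ := QuotientGroup.mk_surjective c
        have h1 : ((x : G) : G ⧸ H) = (g : G ⧸ H) := hcg
        rw [QuotientGroup.eq] at h1
        have hg : g ∈ H' := by
          have := H'.mul_mem x.2 (hle h1)
          rwa [mul_inv_cancel_left] at this
        refine ⟨⟨g, hg⟩, ?_, rfl⟩
        have e1 : ((⟨g, hg⟩ : H') : H' ⧸ H.subgroupOf H') = ((x : H') : H' ⧸ H.subgroupOf H') := by
          symm
          rw [QuotientGroup.eq, Subgroup.mem_subgroupOf]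
          exact h1
        show ((⟨g, hg⟩ : H') : H' ⧸ H.subgroupOf H') ∈ F
        rw [e1]
        exact hcF
      · rintro ⟨x, hx, rfl⟩
        exact ⟨_, hx, rfl⟩
    rw [e]
    exact hH'.isClosedEmbedding_subtypeVal.isClosedMap _ (hF.preimage continuous_quot_mk)
  have hio_emb : IsClosedEmbedding (io H H') :=
    IsClosedEmbedding.of_continuous_injective_isClosedMap hio_cont hio_inj hio_closed
  have hCc : CompactSpace (H' ⧸ H.subgroupOf H') := hio_emb.compactSpace
  refine ⟨H' ⧸ H.subgroupOf H', cg, inferInstance, htg, hCc, ht2, ⟨?_⟩⟩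
  exact
    { pr := fun x => (x : H' ⧸ H.subgroupOf H')
      ra := ra hle hc
      pr_mul := fun x y => rfl
      pr_cont := continuous_quot_mk
      pr_surj := QuotientGroup.mk_surjective
      pr_ker := fun x => by
        have : ((x : H' ⧸ H.subgroupOf H') = 1) ↔ x ∈ H.subgroupOf H' :=
          QuotientGroup.eq_one_iff x
        rw [Subgroup.mem_subgroupOf] at this
        exact this
      ra_mk := fun x g => rfl
      ra_cont := by
        have hq : IsOpenQuotientMap (Prod.map (QuotientGroup.mk : H' → H' ⧸ H.subgroupOf H')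
            (QuotientGroup.mk : G → G ⧸ H)) :=
          QuotientGroup.isOpenQuotientMap_mk.prodMap QuotientGroup.isOpenQuotientMap_mk
        refine hq.isQuotientMap.continuous_iff.2 ?_
        have : Continuous fun p : H' × G => ((p.2 * (p.1 : G) : G) : G ⧸ H) :=
          continuous_quot_mk.comp
            (continuous_snd.mul (continuous_subtype_val.comp continuous_fst))
        exact this }

end Pool.Agent.W479.PR.BUN
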